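import Pool.Agent.P8H39.FDF.Stm

/-!
Package ONE of the project FDF.
-/

set_option autoImplicit false

open Finset

namespace Pool.Agent.P8H4.FDF

open P8H39.FDF

section basic

variable {V : Type} [Fintype V] [DecidableEq V]

/-- the part `j` -/
def Pa (p : V → Fin 3) (j : Fin 3) : Finset V := univ.filter fun y => p y = j

omit [DecidableEq V] in
theorem mem_Pa {p : V → Fin 3} {j : Fin 3} {x : V} : x ∈ Pa p j ↔ p x = j := by
  simp [Pa]

omit [DecidableEq V] in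
theorem av_B (f : V → Bool) :
    av (fun y => B (f y)) = ((univ.filter fun x => f x = true).card : ℝ) / Fintype.card V := by
  unfold av
  congr 1
  simp [B, Finset.sum_boole]

omit [DecidableEq V] in
theorem al_eq (p : V → Fin 3) (j : Fin 3) : al p j = ((Pa p j).card : ℝ) / Fintype.card V := by
  unfold al
  rw [av_B]
  congr 3
  ext y
  simp [Pa]

theorem ip_eq (r : V → V → Bool) (p : V → Fin 3) (x : V) :
    ip r p x = ((aN r x (Pa p (p x))).card : ℝ) / Fintype.card V := by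
  unfold ip
  rw [av_B]
  congr 3
  ext y
  simp [aN, Pa]

theorem mp_ge (r : V → V → Bool) (p : V → Fin 3) (x : V) (k : Fin 3) (hk : k ≠ p x) :
    ((nN r x (Pa p k)).card : ℝ) / Fintype.card V ≤ mp r p x := by
  unfold mp
  rw [av_B]
  gcongr
  intro y hy
  simp only [nN, Pa, mem_filter, mem_univ, true_and] at hy
  simp only [mem_filter, mem_univ, true_and]
  rw [hy.2, hy.1]
  simp [hk]

theorem dp_eq (r : V → V → Bool) (p : V → Fin 3) (x : V) :
    dp r x = (((oN r x (Pa p 0)).card : ℝ) + (oN r x (Pa p 1)).card + (oN r x (Pa p 2)).card) /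
      Fintype.card V := by
  unfold dp
  rw [av_B]
  congr 1
  have h := Finset.card_eq_sum_card_fiberwise (s := univ.filter fun y => r x y = true) (f := p)
    (t := univ) (fun y _ => mem_univ (p y))
  rw [h, Fin.sum_univ_three]
  push_cast
  have h1 : ∀ j : Fin 3, {y ∈ (univ.filter fun y => r x y = true) | p y = j} =
      oN r x (Pa p j) := by
    intro j
    ext y
    simp [oN, Pa, and_comm]
  rw [h1, h1, h1]

omit [DecidableEq V] in
theorem B_nonneg (b : Bool) : 0 ≤ B b := by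
  unfold B
  split_ifs <;> norm_num

omit [DecidableEq V] in
theorem av_nonneg {f : V → ℝ} (h : ∀ x, 0 ≤ f x) : 0 ≤ av f :=
  div_nonneg (sum_nonneg fun x _ => h x) (Nat.cast_nonneg _)

end basic

section pairs

variable {V : Type} [DecidableEq V]

theorem card_aN {r : V → V → Bool} (hr : Ori r) (P : Finset V) :
    ∑ x ∈ P, (aN r x P).card = 2 * ∑ x ∈ P, (oN r x P).card := by
  have h1 : ∀ x, (aN r x P).card = (oN r x P).card + (P.filter fun y => r y x = true).card := by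
    intro x
    unfold aN oN
    rw [← Finset.card_union_of_disjoint]
    · congr 1
      ext y
      simp only [mem_filter, mem_union, adj, Bool.or_eq_true]
      tauto
    · rw [Finset.disjoint_left]
      intro y hy hy'
      rw [mem_filter] at hy hy'
      have := hr x y hy.2
      rw [this] at hy'
      exact Bool.false_ne_true hy'.2
  rw [Finset.sum_congr rfl fun x _ => h1 x, Finset.sum_add_distrib, two_mul]
  congr 1
  simp only [Finset.card_filter]
  rw [Finset.sum_comm]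
  simp only [oN, Finset.card_filter]

theorem card_nN (r : V → V → Bool) (P Q : Finset V) :
    ∑ y ∈ Q, (nN r y P).card = ∑ x ∈ P, (nN r x Q).card := by
  simp only [nN, Finset.card_filter]
  rw [Finset.sum_comm]
  refine Finset.sum_congr rfl fun x _ => Finset.sum_congr rfl fun y _ => ?_
  have h : adj r y x = adj r x y := Bool.or_comm _ _
  rw [h]

theorem U2_mono (r : V → V → Bool) {X Y P Q : Finset V} (hX : X ⊆ P) (hY : Y ⊆ Q) :
    U2 r X Y ≤ U2 r P Q := by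
  have h1 : ∀ (x : V) {A A' : Finset V}, A ⊆ A' → (aN r x A).card ≤ (aN r x A').card :=
    fun x A A' h => card_le_card (filter_subset_filter _ h)
  have h2 : ∀ (x : V) {A A' : Finset V}, A ⊆ A' → (nN r x A).card ≤ (nN r x A').card :=
    fun x A A' h => card_le_card (filter_subset_filter _ h)
  unfold U2
  gcongr ?_ + ?_ + 2 * ?_
  · exact (sum_le_sum fun x _ => h1 x hX).trans (sum_le_sum_of_subset hX)
  · exact (sum_le_sum fun x _ => h1 x hY).trans (sum_le_sum_of_subset hY)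
  · exact (sum_le_sum fun x _ => h2 x hY).trans (sum_le_sum_of_subset hX)

end pairs

/-- The pointwise inequality for `(dp x - 1/3)^2`. -/
theorem sq_lower {s u v d : ℝ} (hs : 0 ≤ s) (hus : u ≤ s) (hv : 0 ≤ v) (hd : u - v ≤ 1 / 3 - d) :
    (max 0 u) ^ 2 - 2 * s * v ≤ (d - 1 / 3) ^ 2 := by
  rcases le_total u 0 with hu | hu
  · rw [max_eq_left hu]
    nlinarith [sq_nonneg (d - 1 / 3), mul_nonneg hs hv]
  · rw [max_eq_right hu]
    have h1 : 2 * u * v ≤ 2 * s * v := by nlinarith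
    rcases le_total v u with huv | huv
    · have h2 : (u - v) ^ 2 ≤ (1 / 3 - d) ^ 2 := by
        have h3 : 0 ≤ u - v := by linarith
        gcongr
      nlinarith [sq_nonneg v]
    · nlinarith [sq_nonneg (d - 1 / 3)]

theorem cube_lower {m τ N : ℝ} (hN : 1 ≤ N) (hm : 0 ≤ m) (hm1 : m ≤ 1) (hτ : 0 ≤ τ) (hτ1 : τ ≤ 1)
    (h : m - 1 / N ≤ τ) : m ^ 3 - 3 / N ≤ τ ^ 3 := by
  have hN0 : 0 < 1 / N := by positivity
  rcases le_total m τ with hmτ | hmτ
  · have : m ^ 3 ≤ τ ^ 3 := by gcongr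
    have h3 : 0 ≤ 3 / N := by positivity
    linarith
  · have h1 : m ^ 3 - τ ^ 3 = (m - τ) * (m ^ 2 + m * τ + τ ^ 2) := by ring
    have h2 : m ^ 2 + m * τ + τ ^ 2 ≤ 3 := by nlinarith
    have h3 : (m - τ) * (m ^ 2 + m * τ + τ ^ 2) ≤ 1 / N * 3 := by
      apply mul_le_mul _ h2 (by positivity) hN0.le
      linarith
    have h4 : 1 / N * 3 = 3 / N := by ring
    linarith

theorem pt_lower {N s a b c d : ℝ} (hN : 0 < N) (hs : 0 ≤ s) (ha : 0 ≤ a) (hb : 0 ≤ b)
    (hc : c ≤ (1 / 3 - s) * N) (hd : d = (a + b + c) / N) :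
    (max 0 (s * N - b)) ^ 2 / N ^ 2 - 2 * s * (a / N) ≤ (d - 1 / 3) ^ 2 := by
  have h1 : max 0 (s * N - b) / N = max 0 (s - b / N) := by
    have h2 : s - b / N = (s * N - b) / N := by field_simp
    rw [h2]
    rcases le_total (s * N - b) 0 with h | h
    · rw [max_eq_left h, max_eq_left (div_nonpos_of_nonpos_of_nonneg h hN.le), zero_div]
    · rw [max_eq_right h, max_eq_right (div_nonneg h hN.le)]
  have h3 : (max 0 (s * N - b)) ^ 2 / N ^ 2 = (max 0 (s - b / N)) ^ 2 := by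
    rw [← h1, div_pow]
  rw [h3]
  refine sq_lower hs (by have := div_nonneg hb hN.le; linarith) (div_nonneg ha hN.le) ?_
  have h4 : c / N ≤ 1 / 3 - s := by
    rw [div_le_iff₀ hN]
    exact hc
  have h5 : (a + b + c) / N = a / N + b / N + c / N := by ring
  rw [hd, h5]
  linarith

theorem sum_two_le {V : Type} [Fintype V] [DecidableEq V] (p : V → Fin 3) {g : V → ℝ}
    (hg : ∀ x, 0 ≤ g x) : ∑ x ∈ Pa p 0, g x + ∑ x ∈ Pa p 1, g x ≤ ∑ x, g x := by
  have hd : Disjoint (Pa p 0) (Pa p 1) := by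
    rw [Finset.disjoint_left]
    intro x hx hx'
    rw [mem_Pa] at hx hx'
    rw [hx] at hx'
    exact absurd hx' (by decide)
  rw [← Finset.sum_union hd]
  exact Finset.sum_le_sum_of_subset_of_nonneg (subset_univ _) fun x _ _ => hg x

theorem prod_lower {s a b c : ℝ} (hs : 0 ≤ s) (h : a + b + c = 1) (hc : s = 1 / 3 - c) :
    -(3 / 4 * s ^ 3) ≤ 3 * ((a - 1 / 3) * (b - 1 / 3) * (c - 1 / 3)) := by
  have h1 : c - 1 / 3 = -s := by linarith
  have h2 : b - 1 / 3 = s - (a - 1 / 3) := by linarith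
  rw [h1, h2]
  have h3 := mul_nonneg hs (sq_nonneg (s - 2 * (a - 1 / 3)))
  linear_combination 3 / 4 * h3

theorem t_ONE (hG : S_GLOB) (hLm : S_LEM) (hLv : S_LEV) (hNm : S_NUM) : S_ONE := by
  intro V _ _ _ r p hr h4 hi hal hl2 hu2 hl0 hl1
  have hcard : 1 ≤ Fintype.card V := Fintype.card_pos
  obtain ⟨N, hNdef⟩ : ∃ N : ℝ, N = (Fintype.card V : ℝ) := ⟨_, rfl⟩
  have hN1 : (1 : ℝ) ≤ N := by rw [hNdef]; exact_mod_cast hcard
  have hN0 : 0 < N := by linarith
  have hPQ : Disjoint (Pa p 0) (Pa p 1) := by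
    rw [Finset.disjoint_left]
    intro x hx hx'
    rw [mem_Pa] at hx hx'
    rw [hx] at hx'
    exact absurd hx' (by decide)
  have hsum : al p 0 + al p 1 + al p 2 = 1 := by
    have h := Finset.card_eq_sum_card_fiberwise (s := (univ : Finset V)) (f := p)
      (t := univ) (fun y _ => mem_univ (p y))
    rw [Finset.card_univ, Fin.sum_univ_three] at h
    rw [al_eq, al_eq, al_eq, ← hNdef]
    have h' : N = ((Pa p 0).card : ℝ) + (Pa p 1).card + (Pa p 2).card := by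
      rw [hNdef]
      exact_mod_cast h
    rw [← add_div, ← add_div, ← h', div_self hN0.ne']
  obtain ⟨s, hs⟩ : ∃ s : ℝ, s = 1 / 3 - al p 2 := ⟨_, rfl⟩
  have hs0 : 0 ≤ s := by linarith
  have hs1 : s ≤ 96 / 1000 := by linarith
  have hP0 : ((Pa p 0).card : ℝ) = al p 0 * N := by
    rw [al_eq, ← hNdef]; field_simp
  have hR : ((Pa p 2).card : ℝ) = (1 / 3 - s) * N := by
    rw [hs, al_eq, ← hNdef]; field_simp; ring
  obtain ⟨A0, hA0⟩ : ∃ A : ℕ, A = ∑ x ∈ Pa p 0, (aN r x (Pa p 0)).card := ⟨_, rfl⟩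
  obtain ⟨A1, hA1⟩ : ∃ A : ℕ, A = ∑ x ∈ Pa p 1, (aN r x (Pa p 1)).card := ⟨_, rfl⟩
  obtain ⟨M, hM⟩ : ∃ A : ℕ, A = ∑ x ∈ Pa p 0, (nN r x (Pa p 1)).card := ⟨_, rfl⟩
  have hU : U2 r (Pa p 0) (Pa p 1) = A0 + A1 + 2 * M := by
    rw [hA0, hA1, hM]; rfl
  -- the number `K`
  obtain ⟨K, hK⟩ : ∃ K, K = Nat.findGreatest
      (fun k => k ^ 2 ≤ 2 * U2 r (Pa p 0) (Pa p 1) + 4 * k) (Fintype.card V) := ⟨_, rfl⟩
  have hK1 : K ≤ Fintype.card V := by rw [hK]; exact Nat.findGreatest_le _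
  have hK2 : K ^ 2 ≤ 2 * U2 r (Pa p 0) (Pa p 1) + 4 * K := by
    rw [hK]
    exact Nat.findGreatest_spec (P := fun k => k ^ 2 ≤ 2 * U2 r (Pa p 0) (Pa p 1) + 4 * k)
      (Nat.zero_le _) (by simp)
  have hlev := hLv V r (Pa p 0) (Pa p 1) K (s * N) (by positivity)
    (by rw [hP0]; gcongr; linarith) (fun X Y k hX hY hne h1 h2 => by
      rw [hK]
      refine Nat.le_findGreatest ?_ ?_
      · obtain ⟨x, hx⟩ := hne
        exact (h1 x hx).trans (card_le_univ _)
      · have h3 := hLm V r hr h4 k X Y (Disjoint.mono hX hY hPQ) hne h1 h2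
        have h5 := U2_mono r hX hY
        show k ^ 2 ≤ 2 * U2 r (Pa p 0) (Pa p 1) + 4 * k
        omega)
  obtain ⟨T, hT⟩ : ∃ T : ℕ, T = ⌊s * N⌋₊ - K := ⟨_, rfl⟩
  rw [← hT] at hlev
  have hT1 : (T : ℝ) ≤ N := by
    have h1 : T ≤ ⌊s * N⌋₊ := by rw [hT]; exact Nat.sub_le _ _
    have h2 : ((⌊s * N⌋₊ : ℕ) : ℝ) ≤ s * N := Nat.floor_le (by positivity)
    have h3 : (T : ℝ) ≤ (⌊s * N⌋₊ : ℕ) := by exact_mod_cast h1
    nlinarith
  have hT2 : s * N - 1 - K ≤ T := by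
    have h1 : ⌊s * N⌋₊ ≤ T + K := by rw [hT]; exact le_tsub_add
    have h2 : s * N - 1 < (⌊s * N⌋₊ : ℕ) := Nat.sub_one_lt_floor _
    have h3 : ((⌊s * N⌋₊ : ℕ) : ℝ) ≤ T + K := by exact_mod_cast h1
    linarith
  obtain ⟨J1, hJ1⟩ : ∃ J : ℝ, J = ∑ x ∈ Pa p 0, (max 0 (s * N - ((oN r x (Pa p 1)).card : ℝ))) ^ 2 :=
    ⟨_, rfl⟩
  obtain ⟨J2, hJ2⟩ : ∃ J : ℝ, J = ∑ x ∈ Pa p 1, (max 0 (s * N - ((oN r x (Pa p 0)).card : ℝ))) ^ 2 :=
    ⟨_, rfl⟩
  rw [← hJ1, ← hJ2] at hlev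
  -- the variance
  have hor : ∀ x, ((oN r x (Pa p 2)).card : ℝ) ≤ (1 / 3 - s) * N := by
    intro x
    rw [← hR]
    exact_mod_cast card_le_card (filter_subset _ _)
  have hV3 : (J1 + J2) / N ^ 3 - s * ((A0 + A1) / N ^ 2) ≤ V3 r := by
    have h1 : V3 r = (∑ x, (dp r x - 1 / 3) ^ 2) / N := by
      rw [hNdef]; rfl
    have h2 := sum_two_le p (g := fun x => (dp r x - 1 / 3) ^ 2) fun x => sq_nonneg _
    have h3 : J1 / N ^ 2 - s * (A0 / N) ≤ ∑ x ∈ Pa p 0, (dp r x - 1 / 3) ^ 2 := by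
      have h5 : ∀ x ∈ Pa p 0, (max 0 (s * N - ((oN r x (Pa p 1)).card : ℝ))) ^ 2 / N ^ 2 -
          2 * s * (((oN r x (Pa p 0)).card : ℝ) / N) ≤ (dp r x - 1 / 3) ^ 2 := by
        intro x _
        refine pt_lower hN0 hs0 (Nat.cast_nonneg _) (Nat.cast_nonneg _) (hor x) ?_
        rw [dp_eq r p x, ← hNdef]
      refine le_trans (le_of_eq ?_) (sum_le_sum h5)
      rw [Finset.sum_sub_distrib, ← Finset.sum_div, ← hJ1, ← Finset.mul_sum, ← Finset.sum_div]
      congr 1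
      have h6 : (A0 : ℝ) = 2 * ∑ x ∈ Pa p 0, ((oN r x (Pa p 0)).card : ℝ) := by
        rw [hA0, card_aN hr]
        push_cast
        rfl
      rw [h6]
      ring
    have h4 : J2 / N ^ 2 - s * (A1 / N) ≤ ∑ x ∈ Pa p 1, (dp r x - 1 / 3) ^ 2 := by
      have h5 : ∀ x ∈ Pa p 1, (max 0 (s * N - ((oN r x (Pa p 0)).card : ℝ))) ^ 2 / N ^ 2 -
          2 * s * (((oN r x (Pa p 1)).card : ℝ) / N) ≤ (dp r x - 1 / 3) ^ 2 := by
        intro x _
        refine pt_lower hN0 hs0 (Nat.cast_nonneg _) (Nat.cast_nonneg _) (hor x) ?_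
        rw [dp_eq r p x, ← hNdef]
        ring
      refine le_trans (le_of_eq ?_) (sum_le_sum h5)
      rw [Finset.sum_sub_distrib, ← Finset.sum_div, ← hJ2, ← Finset.mul_sum, ← Finset.sum_div]
      congr 1
      have h6 : (A1 : ℝ) = 2 * ∑ x ∈ Pa p 1, ((oN r x (Pa p 1)).card : ℝ) := by
        rw [hA1, card_aN hr]
        push_cast
        rfl
      rw [h6]
      ring
    rw [h1, le_div_iff₀ hN0]
    refine le_trans (le_of_eq ?_) (le_trans (add_le_add h3 h4) h2)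
    field_simp
    ring
  -- the average
  have hip0 : ∀ x, 0 ≤ ip r p x := fun x => av_nonneg fun y => B_nonneg _
  have hmp0 : ∀ x, 0 ≤ mp r p x := fun x => av_nonneg fun y => B_nonneg _
  have hav : 835 / 1000 * ((A0 + A1) / N ^ 2) + 134 / 100 * (M / N ^ 2) ≤
      av fun x => ip r p x * (1 - 3 * ip r p x) +
        mp r p x * (6 * al p (p x) - 1 - 6 * ip r p x - 3 * mp r p x) := by
    obtain ⟨g, hg⟩ : ∃ g : V → ℝ, g = fun x => ip r p x * (1 - 3 * ip r p x) +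
        mp r p x * (6 * al p (p x) - 1 - 6 * ip r p x - 3 * mp r p x) := ⟨_, rfl⟩
    rw [← hg]
    have hg0 : ∀ x, 0 ≤ g x := by
      intro x
      rw [hg]
      have h1 := hi x
      have h2 := hal (p x)
      have h3 := hip0 x
      have h5 := hmp0 x
      have h6 : 0 ≤ 1 - 3 * ip r p x := by linarith
      have h7 : 0 ≤ 6 * al p (p x) - 1 - 6 * ip r p x - 3 * mp r p x := by linarith
      positivity
    have hg1 : ∀ x, 1 / 3 ≤ al p (p x) →
        835 / 1000 * ip r p x + 67 / 100 * mp r p x ≤ g x := by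
      intro x hx
      rw [hg]
      have h1 := hi x
      have h3 := hip0 x
      have h5 := hmp0 x
      have h6 : 835 / 1000 ≤ 1 - 3 * ip r p x := by linarith
      have h7 : 67 / 100 ≤ 6 * al p (p x) - 1 - 6 * ip r p x - 3 * mp r p x := by linarith
      have h8 := mul_le_mul_of_nonneg_left h6 h3
      have h9 := mul_le_mul_of_nonneg_left h7 h5
      linarith
    have h1 : av g = (∑ x, g x) / N := by rw [hNdef]; rfl
    have h2 := sum_two_le p hg0
    have h3 : 835 / 1000 * (A0 / N) + 67 / 100 * (M / N) ≤ ∑ x ∈ Pa p 0, g x := by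
      have h5 : ∀ x ∈ Pa p 0, 835 / 1000 * (((aN r x (Pa p 0)).card : ℝ) / N) +
          67 / 100 * (((nN r x (Pa p 1)).card : ℝ) / N) ≤ g x := by
        intro x hx
        rw [mem_Pa] at hx
        refine le_trans ?_ (hg1 x (by rw [hx]; exact hl0))
        have h6 := ip_eq r p x
        have h7 := mp_ge r p x 1 (by rw [hx]; decide)
        rw [hx] at h6
        rw [← hNdef] at h6 h7
        rw [h6]
        linarith
      refine le_trans (le_of_eq ?_) (sum_le_sum h5)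
      rw [Finset.sum_add_distrib, ← Finset.mul_sum, ← Finset.mul_sum, ← Finset.sum_div,
        ← Finset.sum_div, hA0, hM]
      push_cast
      rfl
    have h4 : 835 / 1000 * (A1 / N) + 67 / 100 * (M / N) ≤ ∑ x ∈ Pa p 1, g x := by
      have h5 : ∀ x ∈ Pa p 1, 835 / 1000 * (((aN r x (Pa p 1)).card : ℝ) / N) +
          67 / 100 * (((nN r x (Pa p 0)).card : ℝ) / N) ≤ g x := by
        intro x hx
        rw [mem_Pa] at hx
        refine le_trans ?_ (hg1 x (by rw [hx]; exact hl1))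
        have h6 := ip_eq r p x
        have h7 := mp_ge r p x 0 (by rw [hx]; decide)
        rw [hx] at h6
        rw [← hNdef] at h6 h7
        rw [h6]
        linarith
      refine le_trans (le_of_eq ?_) (sum_le_sum h5)
      rw [Finset.sum_add_distrib, ← Finset.mul_sum, ← Finset.mul_sum, ← Finset.sum_div,
        ← Finset.sum_div, hA1, hM, ← card_nN]
      push_cast
      rfl
    rw [h1, le_div_iff₀ hN0]
    refine le_trans (le_of_eq ?_) (le_trans (add_le_add h3 h4) h2)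
    field_simp
    ring
  have hglob := hG V r p hr
  -- final computation
  obtain ⟨e, he⟩ : ∃ e : ℝ, e = ((A0 : ℝ) + A1) / N ^ 2 := ⟨_, rfl⟩
  obtain ⟨m, hm⟩ : ∃ m : ℝ, m = (M : ℝ) / N ^ 2 := ⟨_, rfl⟩
  obtain ⟨t, ht⟩ : ∃ t : ℝ, t = (K : ℝ) / N := ⟨_, rfl⟩
  obtain ⟨τ, hτ⟩ : ∃ τ : ℝ, τ = (T : ℝ) / N := ⟨_, rfl⟩
  have he0 : 0 ≤ e := by rw [he]; positivity
  have hm0 : 0 ≤ m := by rw [hm]; positivity
  have ht0 : 0 ≤ t := by rw [ht]; positivity
  have hτ0 : 0 ≤ τ := by rw [hτ]; positivity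
  have hτ1 : τ ≤ 1 := by rw [hτ, div_le_one hN0]; exact hT1
  have ht1 : t ≤ 1 := by
    rw [ht, div_le_one hN0, hNdef]
    exact_mod_cast hK1
  have hN2 : (0 : ℝ) < 1 / N := by positivity
  rw [← he] at hV3
  rw [← he, ← hm] at hav
  have hτs : s - t - 1 / N ≤ τ := by
    have h1 : (s * N - 1 - K) / N ≤ T / N := by gcongr
    have h2 : (s * N - 1 - K) / N = s - t - 1 / N := by
      rw [ht]; field_simp; ring
    rw [h2, ← hτ] at h1
    exact h1
  have hJ : 2 / 3 * τ ^ 3 - 1 / N ≤ (J1 + J2) / N ^ 3 := by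
    have h1 : (2 / 3 * (T : ℝ) ^ 3 - (T : ℝ) ^ 2) / N ^ 3 ≤ (J1 + J2) / N ^ 3 := by gcongr
    have h2 : (2 / 3 * (T : ℝ) ^ 3 - (T : ℝ) ^ 2) / N ^ 3 = 2 / 3 * τ ^ 3 - τ ^ 2 * (1 / N) := by
      rw [hτ]; field_simp
    have h3 : τ ^ 2 * (1 / N) ≤ 1 * (1 / N) := by
      gcongr
      exact pow_le_one₀ hτ0 hτ1
    linarith
  have hw : t ^ 2 ≤ 2 * (e + 2 * m) + 4 * (1 / N) := by
    have h1 : (K : ℝ) ^ 2 ≤ 2 * (A0 + A1 + 2 * M) + 4 * K := by
      rw [hU] at hK2
      exact_mod_cast hK2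
    have h2 : (K : ℝ) ^ 2 / N ^ 2 ≤ (2 * (A0 + A1 + 2 * M) + 4 * K) / N ^ 2 := by gcongr
    have h3 : (2 * ((A0 : ℝ) + A1 + 2 * M) + 4 * K) / N ^ 2 =
        2 * (e + 2 * m) + 4 * (t * (1 / N)) := by
      rw [he, hm, ht]; field_simp
    have h5 : t * (1 / N) ≤ 1 * (1 / N) := by gcongr
    have h6 : (K : ℝ) ^ 2 / N ^ 2 = t ^ 2 := by rw [ht, div_pow]
    rw [h3, h6] at h2
    linarith
  have hcube := cube_lower (m := max 0 (s - t)) (τ := τ) hN1 (le_max_left _ _)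
    (max_le (by norm_num) (by linarith)) hτ0 hτ1 (by
      rcases max_cases 0 (s - t) with h | h
      · rw [h.1]; linarith
      · rw [h.1]; linarith)
  have hnum := hNm s t hs0 hs1 ht0
  have hprod := prod_lower hs0 hsum hs
  have hse : s * e ≤ 96 / 1000 * e := by gcongr
  have h11 : 11 / (Fintype.card V : ℝ) = 11 * (1 / N) := by rw [hNdef]; ring
  have h3N : 3 / N = 3 * (1 / N) := by ring
  rw [h3N] at hcube
  rw [h11]
  linarith

end Pool.Agent.P8H4.FDF
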